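import Pool.Agent.U49.SD.Final

set_option autoImplicit false

namespace Pool.Agent.Results.MP_d500f7_co.DeltaSixth

open Filter

/-- The discrepancy function `D(α) = #{n : u_n ∈ [0,α_1] × ⋯ × [0,α_k]} - N α_1 ⋯ α_k`. -/
noncomputable def discFn {N k : ℕ} (u : Fin N → Fin k → ℝ) (α : Fin k → ℝ) : ℝ :=
  ({n : Fin N | ∀ i, 0 ≤ u n i ∧ u n i ≤ α i}.ncard : ℝ) - N * ∏ i, α i

/-- `‖D‖_∞ = sup_α |D(α)|`, over `α ∈ [0,1)^k`. -/
noncomputable def supNorm {N k : ℕ} (u : Fin N → Fin k → ℝ) : ℝ :=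
  ⨆ α : {α : Fin k → ℝ // ∀ i, α i ∈ Set.Ico (0:ℝ) 1}, |discFn u α.1|

/-- `Δ_k(N)`: the infimum of `‖D‖_∞` over all `u_1, …, u_N ∈ [0,1)^k`. -/
noncomputable def Delta (k N : ℕ) : ℝ :=
  ⨅ u : {u : Fin N → Fin k → ℝ // ∀ n i, u n i ∈ Set.Ico (0:ℝ) 1}, supNorm u.1

lemma one_lt_log {N : ℕ} (hN : 3 ≤ N) : 1 < Real.log N := by
  have h3 : 1 < Real.log 3 := by
    rw [Real.lt_log_iff_exp_lt (by norm_num)]
    have h1 := Real.exp_one_lt_d9
    linarith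
  exact h3.trans_le (Real.log_le_log (by norm_num) (by exact_mod_cast hN))

/-- the upper bound for `Δ_k(N)`, `k = n + 2 ≥ 3` -/
theorem upper (n : ℕ) (hn : 1 ≤ n) : ∃ C : ℝ, 0 < C ∧ ∀ N : ℕ, 3 ≤ N →
    Delta (n + 2) N ≤ C * (Real.log N) ^ ((n:ℝ) + 1 - U49.sav n) *
      (Real.log (Real.log N)) ^ 2 := by
  classical
  obtain ⟨C, hC, hfin⟩ := U49.star_closed n hn
  refine ⟨C, hC, ?_⟩
  intro m hm
  obtain ⟨ξ, hξ, hb⟩ := hfin m hm
  have hmem : ∀ μ i, ξ μ i ∈ Set.Ico (0:ℝ) 1 := fun μ j => ⟨(hξ μ j).1, (hξ μ j).2⟩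
  have hbdd : BddBelow (Set.range (fun u : {u : Fin m → Fin (n+2) → ℝ //
      ∀ n i, u n i ∈ Set.Ico (0:ℝ) 1} => supNorm u.1)) := by
    refine ⟨0, ?_⟩
    rintro _ ⟨u, rfl⟩
    exact Real.iSup_nonneg (fun α => abs_nonneg _)
  refine (ciInf_le hbdd ⟨ξ, hmem⟩).trans ?_
  unfold supNorm
  have : Nonempty {α : Fin (n+2) → ℝ // ∀ i, α i ∈ Set.Ico (0:ℝ) 1} :=
    ⟨⟨fun _ => 0, fun _ => ⟨le_rfl, zero_lt_one⟩⟩⟩
  apply ciSup_le
  rintro ⟨α, hα⟩
  have h1 := hb α (fun j => (hα j).1) (fun j => (hα j).2.le)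
    (Finset.univ.filter (fun μ => ∀ j, ξ μ j ≤ α j)) (fun μ => by
      rw [Finset.mem_filter]
      exact ⟨fun h => h.2, fun h => ⟨Finset.mem_univ _, h⟩⟩)
  have h2 : (({n : Fin m | ∀ i, 0 ≤ ξ n i ∧ ξ n i ≤ α i}.ncard : ℕ) : ℝ) =
      ((Finset.univ.filter (fun μ => ∀ j, ξ μ j ≤ α j)).card : ℝ) := by
    rw [← Set.ncard_coe_finset]
    congr 2
    ext μ
    simp only [Set.mem_ofPred_eq, Finset.coe_filter, Finset.mem_univ, true_and]
    exact forall_congr' fun i => ⟨fun h => h.2, fun h => ⟨(hξ μ i).1, h⟩⟩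
  unfold discFn
  rw [h2]
  exact h1

/-- a power saving beats every multiple of a slightly larger power -/
lemma eventually_lt {D : ℕ → ℝ} {C a b : ℝ} (hC : 0 < C) (hab : a < b)
    (h : ∀ N : ℕ, 3 ≤ N → D N ≤ C * (Real.log N) ^ a * (Real.log (Real.log N)) ^ 2) :
    ∀ c : ℝ, 0 < c → ∀ᶠ N : ℕ in atTop, D N < c * (Real.log N) ^ b := by
  intro c hc
  have t1 : Tendsto (fun N : ℕ => Real.log (N:ℝ)) atTop atTop :=
    Real.tendsto_log_atTop.comp tendsto_natCast_atTop_atTop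
  have h0 : Tendsto (fun x : ℝ => Real.log x ^ 2 / x ^ (b - a)) atTop (nhds 0) := by
    have h1 : (fun x : ℝ => Real.log x ^ (2:ℝ)) =o[atTop] fun x => x ^ (b - a) :=
      isLittleO_log_rpow_rpow_atTop 2 (by linarith)
    have h2 := h1.tendsto_div_nhds_zero
    refine h2.congr fun x => ?_
    norm_num
  have h1 := (h0.comp t1).eventually (gt_mem_nhds (show (0:ℝ) < c / C by positivity))
  filter_upwards [h1, eventually_ge_atTop 3] with N h2 h3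
  refine (h N h3).trans_lt ?_
  have hs1 := one_lt_log h3
  have hs0 : 0 < Real.log N := by linarith
  have h4 : 0 < Real.log N ^ a := Real.rpow_pos_of_pos hs0 _
  have h6 : 0 < Real.log N ^ (b - a) := Real.rpow_pos_of_pos hs0 _
  have h5 : Real.log N ^ b = Real.log N ^ (b - a) * Real.log N ^ a := by
    rw [← Real.rpow_add hs0]; congr 1; ring
  have h7 : Real.log (Real.log N) ^ 2 / Real.log N ^ (b - a) < c / C := h2
  rw [div_lt_div_iff₀ h6 hC] at h7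
  rw [h5]
  calc C * Real.log N ^ a * Real.log (Real.log N) ^ 2
      = (Real.log (Real.log N) ^ 2 * C) * Real.log N ^ a := by ring
    _ < (c * Real.log N ^ (b - a)) * Real.log N ^ a := mul_lt_mul_of_pos_right h7 h4
    _ = _ := by ring

/-- For every `k ≥ 3`, with `e = 1/7` if `k = 3` and `e = 1/6` if `k ≥ 4`:
`Δ_k(N) ≤ C (log N)^(k-1-e) (log log N)^2` for all `N ≥ 3`; and for every `κ < e`,
`Δ_k(N) < c (log N)^(k-1-κ)` for every `c > 0` and all large `N`. In particular the exponent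
`k - 1` of the upper bound is not the right one in any dimension `k ≥ 3`. -/
theorem result : ∀ k : ℕ, 3 ≤ k →
    (∃ C : ℝ, 0 < C ∧ ∀ N : ℕ, 3 ≤ N →
      Delta k N ≤ C * (Real.log N) ^ ((k:ℝ) - 1 - (if k = 3 then 1 / 7 else 1 / 6)) *
        (Real.log (Real.log N)) ^ 2) ∧
    (∀ κ : ℝ, κ < (if k = 3 then 1 / 7 else 1 / 6) → ∀ c : ℝ, 0 < c → ∀ᶠ N : ℕ in atTop,
      Delta k N < c * (Real.log N) ^ ((k:ℝ) - 1 - κ)) := by
  intro k hk
  obtain ⟨n, rfl⟩ : ∃ n, k = n + 2 := ⟨k - 2, by omega⟩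
  obtain ⟨C, hC, h⟩ := upper n (by omega)
  have hs : U49.sav n = (if n + 2 = 3 then 1 / 7 else 1 / 6) := by
    unfold U49.sav
    simp only [show (n = 1) = (n + 2 = 3) from propext ⟨fun h => by omega, fun h => by omega⟩]
  have hc : (((n + 2 : ℕ) : ℝ)) - 1 = (n:ℝ) + 1 := by push_cast; ring
  rw [hs] at h
  rw [hc]
  exact ⟨⟨C, hC, h⟩, fun κ hκ => eventually_lt hC (by linarith) h⟩

end Pool.Agent.Results.MP_d500f7_co.DeltaSixth
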